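import Pool.Agent.H660Z.Ds.Lower

/-- The multiplicative Dirichlet spectrum contains the whole interval `[0, (3 - √5)/2]`. -/
theorem Pool.Agent.Results.MP_85fa44_nt.AInterval.result :
    Set.Icc (0 : ℝ) ((3 - Real.sqrt 5) / 2) ⊆ Pool.Agent.H660Z.Ds.Spec :=
  Pool.Agent.H660Z.Ds.spec_lower
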