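import Pool.Agent.H660Z.Ds.Upper

/-- The multiplicative Dirichlet spectrum lies in `[0, 2/5]`; in particular it is not `[0, 1/2]`. -/
theorem Pool.Agent.Results.MP_85fa44_nt.BUpper.result :
    Pool.Agent.H660Z.Ds.Spec ⊆ Set.Icc (0 : ℝ) (2 / 5) :=
  Pool.Agent.H660Z.Ds.spec_upper
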